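import Mathlib

/-!
# The twisted embedding of the Cantor group into the real line
-/

set_option autoImplicit false

namespace Pool.Agent.Q307.HE

open Set

/-- The starting point of the `n`-th block. -/
def st : ℕ → ℕ
  | 0 => 0
  | n + 1 => st n + 2 ^ st n + 1

/-- The last position of the `n`-th block. -/
def tw (n : ℕ) : ℕ := st n + 2 ^ st n

theorem st_succ (n : ℕ) : st (n + 1) = tw n + 1 := rfl

theorem st_lt_tw (n : ℕ) : st n < tw n := by
  unfold tw
  have := Nat.one_le_two_pow (n := st n)
  omega

theorem st_strictMono : StrictMono st := strictMono_nat_of_lt_succ fun n => by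
  rw [st_succ]
  have := st_lt_tw n
  omega

theorem tw_strictMono : StrictMono tw := strictMono_nat_of_lt_succ fun n => by
  have := st_lt_tw (n + 1)
  rw [st_succ] at this
  omega

/-- An enumeration of the binary sequences of length `s`. -/
noncomputable def enum (s : ℕ) : (Fin s → ZMod 2) ≃ Fin (2 ^ s) :=
  Fintype.equivFinOfCardEq (by simp)

/-- The code of the first `s` values of `x`. -/
noncomputable def code (s : ℕ) (x : ℕ → ZMod 2) : ℕ := (enum s fun i => x i).1

theorem code_lt (s : ℕ) (x : ℕ → ZMod 2) : code s x < 2 ^ s := (enum s fun i => x i).2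

theorem code_congr {s : ℕ} {x y : ℕ → ZMod 2} (h : ∀ i < s, x i = y i) : code s x = code s y := by
  unfold code
  have : (fun i : Fin s => x i) = fun i : Fin s => y i := by
    funext i
    exact h i i.2
  rw [this]

theorem code_inj {s : ℕ} {x y : ℕ → ZMod 2} (h : code s x = code s y) : ∀ i < s, x i = y i := by
  unfold code at h
  have h1 := (enum s).injective (Fin.ext h)
  intro i hi
  exact congrFun h1 ⟨i, hi⟩

/-- The address, in the `n`-th block, of `x`. -/
noncomputable def adr (n : ℕ) (x : ℕ → ZMod 2) : ℕ := st n + code (st n) x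

theorem adr_lt (n : ℕ) (x : ℕ → ZMod 2) : adr n x < tw n := by
  unfold adr tw
  have := code_lt (st n) x
  omega

theorem st_le_adr (n : ℕ) (x : ℕ → ZMod 2) : st n ≤ adr n x := Nat.le_add_right _ _

theorem adr_congr {n : ℕ} {x y : ℕ → ZMod 2} (h : ∀ i < st n, x i = y i) : adr n x = adr n y := by
  unfold adr
  rw [code_congr h]

theorem adr_inj {n : ℕ} {x y : ℕ → ZMod 2} (h : adr n x = adr n y) : ∀ i < st n, x i = y i :=
  code_inj (Nat.add_left_cancel h)

open Classical in
/-- The correction at the position `p`: if `p` is the last position of a block, it is the value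
of `x` at its address in this block, and otherwise it is `0`. -/
noncomputable def eps (x : ℕ → ZMod 2) (p : ℕ) : ZMod 2 :=
  if h : ∃ n, p = tw n then x (adr h.choose x) else 0

theorem eps_tw (x : ℕ → ZMod 2) (n : ℕ) : eps x (tw n) = x (adr n x) := by
  have h : ∃ k, tw n = tw k := ⟨n, rfl⟩
  have h1 : h.choose = n := (tw_strictMono.injective h.choose_spec).symm
  unfold eps
  rw [dif_pos h, h1]

theorem eps_congr {x y : ℕ → ZMod 2} {p : ℕ} (h : ∀ i < p, x i = y i) : eps x p = eps y p := by
  by_cases hp : ∃ n, p = tw n
  · obtain ⟨n, rfl⟩ := hp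
    rw [eps_tw, eps_tw]
    have h1 : adr n x = adr n y := adr_congr fun i hi => h i (hi.trans (st_lt_tw n))
    rw [h1]
    exact h _ (adr_lt n y)
  · unfold eps
    rw [dif_neg hp, dif_neg hp]

/-- The twist. -/
noncomputable def twist (x : ℕ → ZMod 2) (p : ℕ) : ZMod 2 := x p + eps x p

open Classical in
/-- The embedding of the Cantor group into the real line. -/
noncomputable def emb (x : ℕ → ZMod 2) : ℝ :=
  Cardinal.cantorFunction (1 / 3) fun p => decide (twist x p = 1)

theorem zmod2 (a : ZMod 2) : a = 0 ∨ a = 1 := by
  fin_cases a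
  · exact Or.inl rfl
  · exact Or.inr rfl

theorem emb_lt_of {x y : ℕ → ZMod 2} {p : ℕ} (h : ∀ i < p, x i = y i) (hp : x p ≠ y p)
    (he : x p = eps x p) : emb x < emb y := by
  classical
  have h1 : ∀ i < p, twist x i = twist y i := fun i hi => by
    unfold twist
    rw [h i hi, eps_congr fun j hj => h j (hj.trans hi)]
  have h2 : twist x p = 0 := by
    unfold twist
    rw [← he]
    exact CharTwo.add_self_eq_zero _
  have h3 : twist y p = 1 := by
    unfold twist
    rw [← eps_congr h]
    rcases zmod2 (x p) with h4 | h4 <;> rcases zmod2 (y p) with h5 | h5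
    · exact absurd (h4.trans h5.symm) hp
    · rw [← he, h4, h5]; rfl
    · rw [← he, h4, h5]; rfl
    · exact absurd (h4.trans h5.symm) hp
  refine Cardinal.increasing_cantorFunction (by norm_num) (by norm_num) (n := p) ?_ ?_ ?_
  · intro i hi
    simp only [h1 i hi]
  · simp [h2]
  · simp [h3]

/-- Comparison of the images of two points which differ first at `p`. -/
theorem emb_lt_iff {x y : ℕ → ZMod 2} {p : ℕ} (h : ∀ i < p, x i = y i) (hp : x p ≠ y p) :
    emb x < emb y ↔ x p = eps x p := by
  constructor
  · intro hlt
    by_contra hne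
    have h1 : y p = eps y p := by
      rw [← eps_congr h]
      rcases zmod2 (x p) with h4 | h4 <;> rcases zmod2 (y p) with h5 | h5 <;>
        rcases zmod2 (eps x p) with h6 | h6 <;> simp_all
    exact absurd (emb_lt_of (fun i hi => (h i hi).symm) hp.symm h1) (not_lt.2 hlt.le)
  · exact emb_lt_of h hp

theorem emb_injective : Function.Injective emb := by
  classical
  intro x y hxy
  by_contra hne
  have hex : ∃ p, x p ≠ y p := by
    by_contra hcon
    push Not at hcon
    exact hne (funext hcon)
  have h1 : ∀ i < Nat.find hex, x i = y i := fun i hi => by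
    by_contra h
    exact Nat.find_min hex hi h
  have h2 := Nat.find_spec hex
  rcases lt_or_ge (emb x) (emb y) with h | h
  · exact absurd hxy h.ne
  · have h3 : ¬ (x (Nat.find hex) = eps x (Nat.find hex)) := fun h4 =>
      absurd ((emb_lt_iff h1 h2).2 h4) (not_lt.2 h)
    have h5 : y (Nat.find hex) = eps y (Nat.find hex) := by
      rw [← eps_congr h1]
      rcases zmod2 (x (Nat.find hex)) with h4 | h4 <;> rcases zmod2 (y (Nat.find hex)) with h5 | h5 <;>
        rcases zmod2 (eps x (Nat.find hex)) with h6 | h6 <;> simp_all
    have h6 := emb_lt_of (fun i hi => (h1 i hi).symm) h2.symm h5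
    exact absurd hxy h6.ne'

/-- A function which depends on finitely many coordinates is continuous. -/
theorem continuous_of_dep {Y : Type*} [TopologicalSpace Y] {f : (ℕ → ZMod 2) → Y} (p : ℕ)
    (hf : ∀ x y, (∀ i < p, x i = y i) → f x = f y) : Continuous f := by
  let r : (ℕ → ZMod 2) → (Fin p → ZMod 2) := fun x i => x i
  let g : (Fin p → ZMod 2) → Y := fun s => f fun i => if h : i < p then s ⟨i, h⟩ else 0
  have h1 : f = g ∘ r := by
    funext x
    refine hf _ _ fun i hi => ?_
    simp [r, hi]
  rw [h1]
  exact (continuous_of_discreteTopology (f := g)).comp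
    (continuous_pi fun i => continuous_apply _)

theorem continuous_emb : Continuous emb := by
  classical
  unfold emb Cardinal.cantorFunction Cardinal.cantorFunctionAux
  refine continuous_tsum (u := fun n : ℕ => (1 / 3 : ℝ) ^ n) (fun n => ?_) ?_ fun n x => ?_
  · refine continuous_of_dep (n + 1) fun x y h => ?_
    have h1 : twist x n = twist y n := by
      unfold twist
      rw [h n (Nat.lt_succ_self n), eps_congr fun i hi => h i (hi.trans (Nat.lt_succ_self n))]
    simp only [h1]
  · exact summable_geometric_of_lt_one (by norm_num) (by norm_num)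
  · by_cases h : twist x n = 1
    · simp [h]
    · simp [h]

theorem isEmbedding_emb : Topology.IsEmbedding emb :=
  (continuous_emb.isClosedEmbedding emb_injective).isEmbedding

end Pool.Agent.Q307.HE
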