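import Mathlib
import Pool.Agent.Q307.HE.Twist

/-!
# Realising every type by changing the generators at twisted positions
-/

set_option autoImplicit false

namespace Pool.Agent.Q307.HE

open Set

variable {m k : ℕ}

/-- The points which are given by the constants `r` and the sums over the sets `P i`. -/
def pt (r : Fin k → ℕ → ZMod 2) (P : Fin k → Finset (Fin m)) (x : Fin m → ℕ → ZMod 2)
    (i : Fin k) : ℕ → ZMod 2 := fun p => r i p + ∑ j ∈ P i, x j p

theorem pt_congr {r : Fin k → ℕ → ZMod 2} {P : Fin k → Finset (Fin m)}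
    {x y : Fin m → ℕ → ZMod 2} {p : ℕ} (h : ∀ j, x j p = y j p) (i : Fin k) :
    pt r P x i p = pt r P y i p := by
  unfold pt
  congr 1
  exact Finset.sum_congr rfl fun j _ => h j

theorem realize (r : Fin k → ℕ → ZMod 2) (P : Fin k → Finset (Fin m)) (hP : ∀ i, (P i).Nonempty)
    (x : Fin m → ℕ → ZMod 2) (hx : Function.Injective (pt r P x)) (n0 : ℕ) (t : Fin k → Bool) :
    ∃ (L : ℕ) (y w : Fin m → ℕ → ZMod 2), n0 ≤ L ∧
      (∀ j, ∀ p < n0, y j p = x j p ∧ w j p = x j p) ∧
      ∀ y' w' : Fin m → ℕ → ZMod 2, (∀ j, ∀ p < L, y' j p = y j p) →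
        (∀ j, ∀ p < L, w' j p = w j p) →
          ∀ i, (emb (pt r P y' i) < emb (pt r P w' i) ↔ t i = false) ∧
            emb (pt r P y' i) ≠ emb (pt r P w' i) := by
  classical
  -- a level where the points are different
  have h1 : ∀ q : Fin k × Fin k, ∃ N : ℕ, q.1 ≠ q.2 → ∃ p < N, pt r P x q.1 p ≠ pt r P x q.2 p := by
    rintro ⟨i, i'⟩
    by_cases h : i = i'
    · exact ⟨0, fun h' => absurd h h'⟩
    · have h2 : pt r P x i ≠ pt r P x i' := fun h' => h (hx h')
      obtain ⟨p, hp⟩ := Function.ne_iff.1 h2
      exact ⟨p + 1, fun _ => ⟨p, Nat.lt_succ_self p, hp⟩⟩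
  choose Nf hNf using h1
  let n : ℕ := max n0 (Finset.univ.sup Nf)
  have hn0 : n0 ≤ st n := (le_max_left _ _).trans st_strictMono.le_apply
  have hsep : ∀ i i', i ≠ i' → ∃ p < st n, pt r P x i p ≠ pt r P x i' p := by
    intro i i' hii
    obtain ⟨p, hp, hne⟩ := hNf (i, i') hii
    refine ⟨p, ?_, hne⟩
    have h2 : Nf (i, i') ≤ Finset.univ.sup Nf := Finset.le_sup (Finset.mem_univ _)
    have h3 : Finset.univ.sup Nf ≤ n := le_max_right _ _
    have h4 : n ≤ st n := st_strictMono.le_apply
    omega
  let mn : Fin k → Fin m := fun i => (P i).min' (hP i)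
  have hmn : ∀ i, mn i ∈ P i := fun i => Finset.min'_mem _ _
  have hmn' : ∀ i, ∀ j ∈ P i, mn i ≤ j := fun i j hj => Finset.min'_le _ _ hj
  let H : Fin k → ℕ → ZMod 2 := fun i p => if p < st n then pt r P x i p else r i p
  let A : Fin k → ℕ := fun i => adr (n + mn i) (H i)
  have hst : ∀ a b : ℕ, a ≤ b → st a ≤ st b := fun a b h => st_strictMono.monotone h
  have hA1 : ∀ i, st (n + mn i) ≤ A i := fun i => st_le_adr _ _
  have hA2 : ∀ i, A i < tw (n + mn i) := fun i => adr_lt _ _
  have hAinj : ∀ i i', mn i = mn i' → A i = A i' → i = i' := by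
    intro i i' hm hA
    by_contra hne
    obtain ⟨p, hp, hd⟩ := hsep i i' hne
    have h2 : adr (n + mn i) (H i) = adr (n + mn i) (H i') := by
      have : A i' = adr (n + mn i) (H i') := by
        show adr (n + mn i') (H i') = _
        rw [hm]
      rw [← this, ← hA]
    have h3 := adr_inj h2 p (hp.trans_le (hst _ _ (Nat.le_add_right _ _)))
    simp only [H, if_pos hp] at h3
    exact hd h3
  let val : Fin k → ℕ → ZMod 2 := fun i p =>
    r i (tw (n + mn i)) + r i p + (if t i = true then 1 else 0)
  let y : Fin m → ℕ → ZMod 2 := fun j p =>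
    if p < st n then x j p else if h : ∃ i, mn i = j ∧ p = A i then val h.choose p else 0
  let w : Fin m → ℕ → ZMod 2 := fun j p => if p = tw (n + j) then y j p + 1 else y j p
  -- basic facts on `y`
  have hy0 : ∀ j p, p < st n → y j p = x j p := fun j p hp => by simp only [y, if_pos hp]
  have hy1 : ∀ (j : Fin m) (p : ℕ), st n ≤ p → (p < st (n + j) ∨ tw (n + j) ≤ p) → y j p = 0 := by
    intro j p hp hp'
    have h2 : ¬ ∃ i, mn i = j ∧ p = A i := by
      rintro ⟨i, rfl, rfl⟩
      have h3 := hA1 i
      have h4 := hA2 i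
      omega
    simp only [y, if_neg (not_lt.2 hp), dif_neg h2]
  have hy2 : ∀ i, y (mn i) (A i) = val i (A i) := by
    intro i
    have h2 : ∃ i', mn i' = mn i ∧ A i = A i' := ⟨i, rfl, rfl⟩
    have h3 : h2.choose = i := by
      obtain ⟨h4, h5⟩ := h2.choose_spec
      exact hAinj _ _ h4 h5.symm
    have h4 : ¬ A i < st n := by
      have h5 := hA1 i
      have h6 := hst n (n + mn i) (Nat.le_add_right _ _)
      omega
    simp only [y, if_neg h4, dif_pos h2, h3]
  have hw1 : ∀ (j : Fin m) (p : ℕ), p ≠ tw (n + j) → w j p = y j p := fun j p hp => by simp only [w, if_neg hp]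
  have hw2 : ∀ j : Fin m, w j (tw (n + j)) = y j (tw (n + j)) + 1 := fun j => by simp [w]
  have hblock : ∀ a b : ℕ, a < b → tw a < st b := by
    intro a b hab
    have h2 : st (a + 1) ≤ st b := hst _ _ hab
    rw [st_succ] at h2
    omega
  have hytw : ∀ j j' : Fin m, y j (tw (n + j')) = 0 := by
    intro j j'
    refine hy1 j _ ?_ ?_
    · exact (hst n (n + j') (Nat.le_add_right _ _)).trans (st_lt_tw _).le
    · rcases lt_or_ge (j' : ℕ) (j : ℕ) with h | h
      · exact Or.inl (hblock _ _ (by omega))
      · exact Or.inr (tw_strictMono.monotone (by omega))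
  refine ⟨st (n + m), y, w, hn0.trans (hst _ _ (Nat.le_add_right _ _)), fun j p hp => ?_,
    fun y' w' hy' hw' i => ?_⟩
  · have h2 : p < st n := hp.trans_le hn0
    have h3 : p ≠ tw (n + j) := by
      have h4 := hst n (n + j) (Nat.le_add_right _ _)
      have h5 := st_lt_tw (n + j)
      omega
    exact ⟨hy0 j p h2, (hw1 j p h3).trans (hy0 j p h2)⟩
  · -- the first difference
    have hL : tw (n + mn i) < st (n + m) := hblock _ _ (by omega)
    have e1 : ∀ p < st (n + m), pt r P y' i p = pt r P y i p := fun p hp =>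
      pt_congr (fun j => hy' j p hp) i
    have e2 : ∀ p < st (n + m), pt r P w' i p = pt r P w i p := fun p hp =>
      pt_congr (fun j => hw' j p hp) i
    have e3 : ∀ p < tw (n + mn i), pt r P y i p = pt r P w i p := by
      intro p hp
      unfold pt
      congr 1
      refine Finset.sum_congr rfl fun j hj => ?_
      rw [hw1]
      have h2 : tw (n + mn i) ≤ tw (n + j) :=
        tw_strictMono.monotone (Nat.add_le_add_left (hmn' i j hj) _)
      omega
    have e4 : pt r P y i (tw (n + mn i)) = r i (tw (n + mn i)) := by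
      unfold pt
      rw [Finset.sum_eq_zero fun j _ => hytw j _, add_zero]
    have e5 : pt r P w i (tw (n + mn i)) = r i (tw (n + mn i)) + 1 := by
      unfold pt
      congr 1
      rw [Finset.sum_eq_single_of_mem (mn i) (hmn i)]
      · rw [hw2, hytw, zero_add]
      · intro j hj hne
        rw [hw1, hytw]
        intro h2
        have h3 := tw_strictMono.injective h2
        exact hne (Fin.ext (by omega))
    have e6 : ∀ p < st (n + mn i), pt r P y i p = H i p := by
      intro p hp
      by_cases h2 : p < st n
      · simp only [H, if_pos h2]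
        exact pt_congr (fun j => hy0 j p h2) i
      · simp only [H, if_neg h2]
        unfold pt
        rw [Finset.sum_eq_zero, add_zero]
        intro j hj
        refine hy1 j p (not_lt.1 h2) (Or.inl (hp.trans_le (hst _ _ ?_)))
        exact Nat.add_le_add_left (hmn' i j hj) _
    have e7 : adr (n + mn i) (pt r P y' i) = A i := by
      refine adr_congr fun p hp => ?_
      rw [e1 p (hp.trans_le (hst _ _ (by omega))), e6 p hp]
    have e8 : pt r P y i (A i) = r i (tw (n + mn i)) + (if t i = true then 1 else 0) := by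
      unfold pt
      rw [Finset.sum_eq_single_of_mem (mn i) (hmn i), hy2]
      · simp only [val]
        have h2 : r i (A i) + r i (A i) = 0 := CharTwo.add_self_eq_zero _
        calc r i (A i) + (r i (tw (n + mn i)) + r i (A i) + if t i = true then 1 else 0)
            = r i (tw (n + mn i)) + (if t i = true then 1 else 0) + (r i (A i) + r i (A i)) := by
              ring
          _ = _ := by rw [h2, add_zero]
      · intro j hj hne
        refine hy1 j _ ?_ (Or.inl ?_)
        · exact (hst n (n + mn i) (Nat.le_add_right _ _)).trans (hA1 i)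
        · have h2 : (mn i : ℕ) < j := lt_of_le_of_ne (hmn' i j hj) fun h => hne (Fin.ext h.symm)
          exact (hA2 i).trans (hblock _ _ (by omega))
    have hAL : A i < st (n + m) := (hA2 i).trans hL
    have hdiff : pt r P y' i (tw (n + mn i)) ≠ pt r P w' i (tw (n + mn i)) := by
      rw [e1 _ hL, e2 _ hL, e4, e5]
      intro h2
      have h4 : (1 : ZMod 2) = 0 := by
        have := congrArg (fun a => a - r i (tw (n + mn i))) h2
        simpa using this
      exact absurd h4 (by decide)
    refine ⟨?_, fun h => hdiff (by rw [emb_injective h])⟩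
    rw [emb_lt_iff (p := tw (n + mn i)) ?_ hdiff, eps_tw, e7, e1 _ hL, e1 _ hAL, e4, e8]
    · constructor
      · intro h2
        by_contra hne
        have h3 : t i = true := by simpa using hne
        rw [if_pos h3] at h2
        have h4 : (1 : ZMod 2) = 0 := by
          have := congrArg (fun a => a - r i (tw (n + mn i))) h2
          simpa using this
        exact absurd h4 (by decide)
      · intro h2
        rw [h2]
        simp
    · intro p hp
      rw [e1 p (hp.trans hL), e2 p (hp.trans hL)]
      exact e3 p hp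

end Pool.Agent.Q307.HE
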