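import Mathlib

/-!
# Entangled sets of reals and homogeneous spaces
-/

set_option autoImplicit false

namespace Pool.Agent.Q307.HE

open Cardinal

/-- The set `E` of reals is `(κ, k)`-entangled: it has at least `κ` elements, and for every family
`F` of size `κ` of `k`-tuples of elements of `E`, each with pairwise distinct entries, such that
distinct tuples in `F` share no entries, and every `t : {0,1}^k`, there are distinct `a, b ∈ F`
such that `a i < b i` exactly when `t i = 0`, for all `i < k`. -/
def EntangledAt (κ : Cardinal.{0}) (k : ℕ) (E : Set ℝ) : Prop :=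
  κ ≤ #E ∧ ∀ F : Set (Fin k → ℝ), #F = κ →
    (∀ a ∈ F, (∀ i, a i ∈ E) ∧ Function.Injective a) →
      (∀ a ∈ F, ∀ b ∈ F, a ≠ b → ∀ i j, a i ≠ b j) →
        ∀ t : Fin k → Fin 2, ∃ a ∈ F, ∃ b ∈ F, a ≠ b ∧ ∀ i, (a i < b i ↔ t i = 0)

/-- `E` is entangled: it is `(ℵ₁, k)`-entangled for every `k ≥ 1`. -/
def Entangled (E : Set ℝ) : Prop := ∀ k : ℕ, 1 ≤ k → EntangledAt ℵ₁ k E

/-- The space `X` is homogeneous: for any two points some homeomorphism of `X` onto itself maps
the first to the second. -/
def Homogeneous (X : Type) [TopologicalSpace X] : Prop := ∀ x y : X, ∃ h : X ≃ₜ X, h x = y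

end Pool.Agent.Q307.HE
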