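import Mathlib
import Pool.Agent.Q307.Lip.Basic

/-!
# A sequence of mutually generic reals of length `ω₁`, under the continuum hypothesis
-/

set_option autoImplicit false

namespace Pool.Agent.Q307.HE

open Cardinal

variable {α : Type}

/-- The first `n` values of `x`. -/
def ini (x : ℕ → α) (n : ℕ) : List α := (List.range n).map x

@[simp] theorem length_ini (x : ℕ → α) (n : ℕ) : (ini x n).length = n := by simp [ini]

theorem getElem_ini (x : ℕ → α) (n i : ℕ) (h : i < (ini x n).length) : (ini x n)[i] = x i := by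
  simp [ini]

/-- Every finite sequence has an extension in `E`. -/
def Dn (E : Set (List α)) : Prop := ∀ s, ∃ t ∈ E, s <+: t

theorem exists_meet_nat [Inhabited α] (E : ℕ → Set (List α)) (hE : ∀ i, Dn (E i)) :
    ∃ x : ℕ → α, ∀ i, ∃ n, ini x n ∈ E i := by
  choose f hf hf' using hE
  let s : ℕ → List α := fun n => Nat.rec [] (fun n t => f n (t ++ [default])) n
  have hs : ∀ n, s (n + 1) = f n (s n ++ [default]) := fun n => rfl
  have hpre : ∀ n, s n ++ [default] <+: s (n + 1) := fun n => by
    rw [hs]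
    exact hf' _ _
  have hlen : ∀ n, n ≤ (s n).length := by
    intro n
    induction n with
    | zero => exact Nat.zero_le _
    | succ n ih =>
      have := (hpre n).length_le
      simp only [List.length_append, List.length_singleton] at this
      omega
  have hmono : ∀ n k, s n <+: s (n + k) := by
    intro n k
    induction k with
    | zero => exact List.prefix_rfl
    | succ k ih => exact ih.trans ((List.prefix_append _ _).trans (hpre (n + k)))
  let x : ℕ → α := fun i => (s (i + 1)).getD i default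
  refine ⟨x, fun i => ⟨(s (i + 1)).length, ?_⟩⟩
  have h1 : ini x (s (i + 1)).length = s (i + 1) := by
    apply List.ext_getElem
    · simp
    · intro j h2 h3
      rw [getElem_ini]
      show (s (j + 1)).getD j default = _
      have h4 : j < (s (j + 1)).length := hlen (j + 1)
      rw [List.getD_eq_getElem _ _ h4]
      rcases le_total (j + 1) (i + 1) with h | h
      · obtain ⟨k, hk⟩ := Nat.exists_eq_add_of_le h
        obtain ⟨u, hu⟩ := hmono (j + 1) k
        have h5 : s (i + 1) = s (j + 1) ++ u := by rw [hk, hu]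
        simp only [h5]
        rw [List.getElem_append_left]
      · obtain ⟨k, hk⟩ := Nat.exists_eq_add_of_le h
        obtain ⟨u, hu⟩ := hmono (i + 1) k
        have h5 : s (j + 1) = s (i + 1) ++ u := by rw [hk, hu]
        simp only [h5]
        rw [List.getElem_append_left]
  rw [h1, hs]
  exact hf _ _

theorem exists_meet [Inhabited α] {ι : Type} [Countable ι] (E : ι → Set (List α)) :
    ∃ x : ℕ → α, ∀ i, Dn (E i) → ∃ n, ini x n ∈ E i := by
  classical
  rcases isEmpty_or_nonempty ι with h | h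
  · exact ⟨fun _ => default, fun i => h.elim i⟩
  obtain ⟨e, he⟩ := exists_surjective_nat ι
  obtain ⟨x, hx⟩ := exists_meet_nat (fun n => if Dn (E (e n)) then E (e n) else Set.univ) (by
    intro n
    by_cases hn : Dn (E (e n))
    · simpa [hn] using hn
    · simp only [if_neg hn]
      exact fun s => ⟨s, Set.mem_univ _, List.prefix_rfl⟩)
  refine ⟨x, fun i hi => ?_⟩
  obtain ⟨n, rfl⟩ := he i
  simpa [hi] using hx n

/-- The section of `D` at the list `z` of points. -/
def sec : Set (List (List α)) → List (ℕ → α) → Set (List (List α))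
  | D, [] => D
  | D, x :: z => sec {l | ∃ n, ini x n :: l ∈ D} z

theorem sec_append (D : Set (List (List α))) (z : List (ℕ → α)) (x : ℕ → α) :
    sec D (z ++ [x]) = {l | ∃ n, ini x n :: l ∈ sec D z} := by
  induction z generalizing D with
  | nil => rfl
  | cons y z ih => exact ih _

theorem mem_sec (D : Set (List (List α))) (z : List (ℕ → α)) (l : List (List α)) :
    l ∈ sec D z ↔ ∃ l', List.Forall₂ (fun x s => ∃ n, s = ini x n) z l' ∧ l' ++ l ∈ D := by
  induction z generalizing D with
  | nil =>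
    constructor
    · intro h
      exact ⟨[], List.Forall₂.nil, h⟩
    · rintro ⟨l', h, h'⟩
      cases h
      exact h'
  | cons x z ih =>
    show l ∈ sec {l | ∃ n, ini x n :: l ∈ D} z ↔ _
    rw [ih]
    constructor
    · rintro ⟨l', h, n, hn⟩
      exact ⟨ini x n :: l', List.Forall₂.cons ⟨n, rfl⟩ h, hn⟩
    · rintro ⟨l', h, h'⟩
      cases h with
      | cons h1 h2 =>
        obtain ⟨n, rfl⟩ := h1
        exact ⟨_, h2, n, h'⟩

/-- Every list of length `m` of finite sequences has an extension in `D`. -/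
def Dm (m : ℕ) (D : Set (List (List α))) : Prop :=
  ∀ l : List (List α), l.length = m → ∃ l' ∈ D, List.Forall₂ (· <+: ·) l l'

/-- the dense sets which have to be met -/
def req (D : Set (List (List α))) (z : List (ℕ → α)) (l : List (List α)) : Set (List α) :=
  {s | ∃ l', List.Forall₂ (· <+: ·) l l' ∧ s :: l' ∈ sec D z}

theorem exists_good [Countable α] [Inhabited α] {W : Type} [LinearOrder W]
    (hIic : ∀ w : W, (Set.Iic w).Countable)
    (𝒟 : W → Set (List (List α))) (a : W) (Z : Set (ℕ → α)) (hZ : Z.Countable) :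
    ∃ x : ℕ → α, ∀ b < a, ∀ z : List (ℕ → α), (∀ y ∈ z, y ∈ Z) → ∀ l,
      Dn (req (𝒟 b) z l) → ∃ n, ini x n ∈ req (𝒟 b) z l := by
  have h1 : Countable (Set.Iio a) :=
    ((hIic a).mono Set.Iio_subset_Iic_self).to_subtype
  have h2 : Countable Z := hZ.to_subtype
  obtain ⟨x, hx⟩ := exists_meet (ι := Set.Iio a × List Z × List (List α)) fun i =>
    req (𝒟 i.1) (i.2.1.map Subtype.val) i.2.2
  refine ⟨x, fun b hb z hz l => ?_⟩
  have h3 := hx (⟨b, hb⟩, z.attach.map fun y => ⟨y.1, hz y.1 y.2⟩, l)
  have h4 : (z.attach.map fun y => (⟨y.1, hz y.1 y.2⟩ : Z)).map Subtype.val = z := by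
    rw [List.map_map]
    exact List.attach_map_subtype_val z
  simp only [h4] at h3
  exact h3

section

variable [Countable α] [Inhabited α] {W : Type} [LinearOrder W] [WellFoundedLT W]
  (hIic : ∀ w : W, (Set.Iic w).Countable) (𝒟 : W → Set (List (List α)))

/-- the points which are available at stage `a` -/
theorem countable_avail {a : W} (f : ∀ b : W, b < a → ℕ → α)
    (hIic : ∀ w : W, (Set.Iic w).Countable) :
    {y | ∃ b, ∃ h : b < a, f b h = y}.Countable := by
  have h1 : Countable (Set.Iio a) :=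
    ((hIic a).mono Set.Iio_subset_Iic_self).to_subtype
  refine (Set.countable_range fun b : Set.Iio a => f b.1 b.2).mono ?_
  rintro y ⟨b, h, rfl⟩
  exact ⟨⟨b, h⟩, rfl⟩

/-- The generic sequence. -/
noncomputable def gen : W → ℕ → α :=
  (wellFounded_lt (α := W)).fix fun a f =>
    Classical.choose (exists_good hIic 𝒟 a {y | ∃ b, ∃ h : b < a, f b h = y}
      (countable_avail f hIic))

theorem gen_spec (a : W) : ∀ b < a, ∀ z : List W, (∀ y ∈ z, y < a) → ∀ l,
    Dn (req (𝒟 b) (z.map (gen hIic 𝒟)) l) → ∃ n, ini (gen hIic 𝒟 a) n ∈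
      req (𝒟 b) (z.map (gen hIic 𝒟)) l := by
  intro b hb z hz l hd
  have h1 := Classical.choose_spec (exists_good hIic 𝒟 a
    {y | ∃ b, ∃ _ : b < a, gen hIic 𝒟 b = y} (countable_avail (fun b _ => gen hIic 𝒟 b) hIic))
  have h2 : gen hIic 𝒟 a = Classical.choose (exists_good hIic 𝒟 a
      {y | ∃ b, ∃ _ : b < a, gen hIic 𝒟 b = y}
      (countable_avail (fun b _ => gen hIic 𝒟 b) hIic)) := by
    conv_lhs => rw [gen]
    rw [WellFounded.fix_eq]
    rfl
  rw [h2]
  refine h1 b hb (z.map (gen hIic 𝒟)) ?_ l hd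
  intro y hy
  obtain ⟨c, hc, rfl⟩ := List.mem_map.1 hy
  exact ⟨c, hz c hc, rfl⟩

theorem generic (h𝒟 : Function.Surjective 𝒟) {m : ℕ} {D : Set (List (List α))} (hD : Dm m D) :
    ∃ a0 : W, ∀ z : List W, z.length = m → z.Pairwise (· < ·) → (∀ a ∈ z, a0 < a) →
      ∃ l ∈ D, List.Forall₂ (fun x s => ∃ n, s = ini x n) (z.map (gen hIic 𝒟)) l := by
  obtain ⟨b, rfl⟩ := h𝒟 D
  refine ⟨b, ?_⟩
  have key : ∀ z2 z1 : List W, Dm z2.length (sec (𝒟 b) (z1.map (gen hIic 𝒟))) →
      (z1 ++ z2).Pairwise (· < ·) → (∀ a ∈ z1 ++ z2, b < a) →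
      [] ∈ sec (𝒟 b) ((z1 ++ z2).map (gen hIic 𝒟)) := by
    intro z2
    induction z2 with
    | nil =>
      intro z1 h _ _
      obtain ⟨l', h1, h2⟩ := h [] rfl
      cases h2
      simpa using h1
    | cons a z2 ih =>
      intro z1 h hp hb
      have e : z1 ++ a :: z2 = (z1 ++ [a]) ++ z2 := by simp
      rw [e] at hp hb ⊢
      refine ih (z1 ++ [a]) ?_ hp hb
      intro l hl
      have hdn : Dn (req (𝒟 b) (z1.map (gen hIic 𝒟)) l) := by
        intro s
        obtain ⟨l'', h1, h2⟩ := h (s :: l) (by simp [hl])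
        cases h2 with
        | cons h3 h4 => exact ⟨_, ⟨_, h4, h1⟩, h3⟩
      obtain ⟨n, l', h1, h2⟩ := gen_spec hIic 𝒟 a b (hb a (by simp)) z1 (by
        intro y hy
        rw [List.append_assoc, List.pairwise_append] at hp
        exact hp.2.2 y hy a (by simp)) l hdn
      refine ⟨l', ?_, h1⟩
      rw [List.map_append, List.map_singleton, sec_append]
      exact ⟨n, h2⟩
  intro z hz hp hb
  have h1 := key z [] (by
    rw [hz]
    exact hD) hp hb
  rw [List.nil_append, mem_sec] at h1
  obtain ⟨l, h2, h3⟩ := h1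
  exact ⟨l, by simpa using h3, h2⟩

end

/-- A well-ordered set of type `ω₁`. -/
theorem exists_omega1 : ∃ (W : Type) (_ : LinearOrder W) (_ : WellFoundedLT W), #W = ℵ₁ ∧
    ∀ w : W, (Set.Iic w).Countable := by
  refine ⟨(Cardinal.aleph 1).ord.ToType, inferInstance, inferInstance, by simp, fun w => ?_⟩
  have h1 : #(Set.Iio w) < ℵ₁ := Cardinal.mk_Iio_toType_ord_lt w
  have h2 : #(Set.Iio w) ≤ ℵ₀ := Order.lt_succ_iff.1 (h1.trans_eq succ_aleph0.symm)
  have h3 : (Set.Iio w).Countable := Cardinal.le_aleph0_iff_set_countable.1 h2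
  rw [← Set.Iio_insert]
  exact h3.insert w

/-- Under the continuum hypothesis there is a sequence of length `ω₁` of mutually generic
reals. -/
theorem exists_generic [Countable α] [Inhabited α] (CH : (𝔠 : Cardinal.{0}) = ℵ₁) :
    ∃ (W : Type) (_ : LinearOrder W) (_ : WellFoundedLT W) (c : W → ℕ → α), #W = ℵ₁ ∧
      (∀ w : W, (Set.Iic w).Countable) ∧ ∀ (m : ℕ) (D : Set (List (List α))), Dm m D →
        ∃ a0 : W, ∀ z : List W, z.length = m → z.Pairwise (· < ·) → (∀ a ∈ z, a0 < a) →
          ∃ l ∈ D, List.Forall₂ (fun x s => ∃ n, s = ini x n) (z.map c) l := by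
  obtain ⟨W, _, _, hW, hIic⟩ := exists_omega1
  have h1 : #(Set (List (List α))) ≤ #W := by
    rw [hW, ← CH, mk_set, ← two_power_aleph0]
    exact power_le_power_left two_ne_zero mk_le_aleph0
  obtain ⟨f⟩ := (Cardinal.le_def _ _).1 h1
  exact ⟨W, inferInstance, inferInstance, gen hIic (Function.invFun f), hW, hIic,
    fun m D hD => generic hIic _ (Function.invFun_surjective f.injective) hD⟩

end Pool.Agent.Q307.HE
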