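import Mathlib
import Pool.Agent.Q307.HE.Defs
import Pool.Agent.Q307.HE.Generic
import Pool.Agent.Q307.HE.Combi

/-!
# A homogeneous entangled set of reals, under the continuum hypothesis
-/

set_option autoImplicit false

namespace Pool.Agent.Q307.HE

open Cardinal Set

/-! ### Uncountable families -/

theorem uncountable_fibre {X Y : Type} {S : Set X} (hS : ¬ S.Countable) [Countable Y] (f : X → Y) :
    ∃ y, ¬ {x ∈ S | f x = y}.Countable := by
  by_contra hcon
  push Not at hcon
  apply hS
  have h1 : S = ⋃ y, {x ∈ S | f x = y} := by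
    ext x
    simp
  rw [h1]
  exact Set.countable_iUnion hcon

/-- A weak form of the `Δ`-system lemma. -/
theorem exists_root {X W : Type} [DecidableEq W] {S : Set X} (hS : ¬ S.Countable)
    (T : X → Finset W) :
    ∃ (R : Finset W) (m : ℕ), ¬ {x ∈ S | R ⊆ T x ∧ (T x \ R).card = m}.Countable ∧
      ∀ B : Set W, B.Countable →
        {x ∈ S | (R ⊆ T x ∧ (T x \ R).card = m) ∧ ∃ a ∈ T x \ R, a ∈ B}.Countable := by
  obtain ⟨M, hM⟩ := uncountable_fibre hS fun x => (T x).card
  -- a root of maximal size
  let Q : ℕ → Prop := fun n => ∃ R : Finset W, R.card = n ∧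
    ¬ {x ∈ {x ∈ S | (T x).card = M} | R ⊆ T x}.Countable
  have hQ0 : Q 0 := ⟨∅, rfl, by simpa using hM⟩
  have hQb : ∀ n, Q n → n ≤ M := by
    rintro n ⟨R, rfl, hR⟩
    obtain ⟨x, hx⟩ : {x ∈ {x ∈ S | (T x).card = M} | R ⊆ T x}.Nonempty := by
      by_contra hne
      rw [Set.not_nonempty_iff_eq_empty] at hne
      rw [hne] at hR
      exact hR Set.countable_empty
    have h1 := Finset.card_le_card hx.2
    rw [hx.1.2] at h1
    exact h1
  classical
  obtain ⟨n, hn, hmax⟩ : ∃ n, Q n ∧ ∀ n', Q n' → n' ≤ n := by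
    refine ⟨Nat.findGreatest Q M, Nat.findGreatest_spec (P := Q) (Nat.zero_le M) hQ0, fun n' h => ?_⟩
    exact Nat.le_findGreatest (hQb n' h) h
  obtain ⟨R, hRc, hR⟩ := hn
  have hm : ∀ x, R ⊆ T x → (T x).card = M → (T x \ R).card = M - n := by
    intro x h1 h2
    rw [Finset.card_sdiff_of_subset h1, h2, hRc]
  refine ⟨R, M - n, fun hc => hR (hc.mono ?_), fun B hB => ?_⟩
  · rintro x ⟨⟨h1, h2⟩, h3⟩
    exact ⟨h1, h3, hm x h3 h2⟩
  · have h1 : {x ∈ S | (R ⊆ T x ∧ (T x \ R).card = M - n) ∧ ∃ a ∈ T x \ R, a ∈ B} ⊆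
        ⋃ a ∈ B \ ↑R, {x ∈ {x ∈ S | (T x).card = M} | insert a R ⊆ T x} := by
      rintro x ⟨hxS, ⟨h1, h2⟩, a, ha, haB⟩
      rw [Finset.mem_sdiff] at ha
      refine Set.mem_biUnion (x := a) ⟨haB, ha.2⟩ ⟨⟨hxS, ?_⟩, Finset.insert_subset ha.1 h1⟩
      rw [Finset.card_sdiff_of_subset h1, hRc] at h2
      have h3 := Finset.card_le_card h1
      have h4 : n ≤ M := hQb n ⟨R, hRc, hR⟩
      have h5 : n < (T x).card := by
        have h6 := Finset.card_lt_card (Finset.ssubset_iff_subset_ne.2 ⟨h1, fun h => ha.2 (h ▸ ha.1)⟩)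
        omega
      have h7 : 0 < (T x).card - n := by omega
      show (T x).card = M
      omega
    refine (Set.Countable.biUnion (hB.mono Set.diff_subset) fun a ha => ?_).mono h1
    by_contra hc
    have h2 : Q (n + 1) := ⟨insert a R, by
      rw [Finset.card_insert_of_notMem ha.2, hRc], hc⟩
    exact absurd (hmax _ h2) (by omega)

/-! ### The group -/

section

variable {W : Type} [DecidableEq W]

/-- the sum of the generators with index in `S` -/
def sm (c : W → ℕ → ZMod 2) (S : Finset W) : ℕ → ZMod 2 := fun p => ∑ a ∈ S, c a p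

theorem sm_add (c : W → ℕ → ZMod 2) (S T : Finset W) :
    sm c S + sm c T = sm c (symmDiff S T) := by
  funext p
  show ∑ a ∈ S, c a p + ∑ a ∈ T, c a p = ∑ a ∈ symmDiff S T, c a p
  rw [← Finset.sum_union_inter]
  have h1 : S ∪ T = symmDiff S T ∪ (S ∩ T) := by
    ext a
    simp only [Finset.mem_union, Finset.mem_symmDiff, Finset.mem_inter]
    tauto
  have h2 : Disjoint (symmDiff S T) (S ∩ T) := by
    rw [Finset.disjoint_left]
    intro a ha hb
    simp only [Finset.mem_symmDiff, Finset.mem_inter] at ha hb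
    tauto
  rw [h1, Finset.sum_union h2, add_assoc, CharTwo.add_self_eq_zero, add_zero]

/-- The homogeneous set. -/
def EE (c : W → ℕ → ZMod 2) : Set ℝ := emb '' Set.range (sm c)

theorem homogeneous_EE (c : W → ℕ → ZMod 2) : Homogeneous (EE c) := by
  let H : Set (ℕ → ZMod 2) := Set.range (sm c)
  let e : H ≃ₜ EE c := isEmbedding_emb.homeomorphImage H
  have hH : ∀ a ∈ H, ∀ b ∈ H, a + b ∈ H := by
    rintro _ ⟨S, rfl⟩ _ ⟨T, rfl⟩
    exact ⟨_, (sm_add c S T).symm⟩
  have hadd : ∀ a b : ℕ → ZMod 2, a + b + b = a := fun a b => by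
    funext p
    show a p + b p + b p = a p
    rw [add_assoc, CharTwo.add_self_eq_zero, add_zero]
  have tr : ∀ g ∈ H, ∃ h : H ≃ₜ H, ∀ a, (h a).1 = a.1 + g := by
    intro g hg
    have hc : Continuous fun a : H => (⟨a.1 + g, hH _ a.2 _ hg⟩ : H) :=
      Continuous.subtype_mk (continuous_subtype_val.add continuous_const) _
    exact ⟨{ toFun := fun a => ⟨a.1 + g, hH _ a.2 _ hg⟩
             invFun := fun a => ⟨a.1 + g, hH _ a.2 _ hg⟩
             left_inv := fun a => Subtype.ext (hadd _ _)
             right_inv := fun a => Subtype.ext (hadd _ _)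
             continuous_toFun := hc
             continuous_invFun := hc }, fun a => rfl⟩
  intro x y
  obtain ⟨h, hh⟩ := tr ((e.symm x).1 + (e.symm y).1) (hH _ (e.symm x).2 _ (e.symm y).2)
  refine ⟨(e.symm.trans h).trans e, ?_⟩
  show e (h (e.symm x)) = y
  have h1 : h (e.symm x) = e.symm y := by
    apply Subtype.ext
    rw [hh]
    rw [← add_assoc]
    funext p
    show (e.symm x).1 p + (e.symm x).1 p + (e.symm y).1 p = (e.symm y).1 p
    rw [CharTwo.add_self_eq_zero, zero_add]
  rw [h1]
  exact e.apply_symm_apply y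

end

section

variable {W : Type} [LinearOrder W]

/-- the mutual genericity of the sequence `c` -/
def Generic (c : W → ℕ → ZMod 2) : Prop :=
  ∀ (m : ℕ) (D : Set (List (List (ZMod 2)))), Dm m D →
    ∃ a0 : W, ∀ z : List W, z.length = m → z.Pairwise (· < ·) → (∀ a ∈ z, a0 < a) →
      ∃ l ∈ D, List.Forall₂ (fun x s => ∃ n, s = ini x n) (z.map c) l

theorem generic_injective {c : W → ℕ → ZMod 2} (hc : Generic c) :
    ∃ a0, ∀ a b, a0 < a → a < b → c a ≠ c b := by
  obtain ⟨a0, h0⟩ := hc 2 {l | ∃ s t : List (ZMod 2), l = [s, t] ∧ ¬ s <+: t ∧ ¬ t <+: s} (by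
    intro l hl
    obtain ⟨s, t, rfl⟩ := List.length_eq_two.1 hl
    let N := max s.length t.length
    let s' := s ++ List.replicate (N - s.length) 0 ++ [0]
    let t' := t ++ List.replicate (N - t.length) 0 ++ [1]
    have hs : (s ++ List.replicate (N - s.length) (0 : ZMod 2)).length = N := by
      rw [List.length_append, List.length_replicate]
      have := le_max_left s.length t.length
      omega
    have ht : (t ++ List.replicate (N - t.length) (0 : ZMod 2)).length = N := by
      rw [List.length_append, List.length_replicate]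
      have := le_max_right s.length t.length
      omega
    have hne : s' ≠ t' := by
      intro h
      have h1 := (List.append_inj h (hs.trans ht.symm)).2
      simp at h1
    have hlen : s'.length = t'.length := by
      have e1 : s'.length = (s ++ List.replicate (N - s.length) (0 : ZMod 2)).length + 1 := by
        change (s ++ List.replicate (N - s.length) (0 : ZMod 2) ++ [0]).length = _
        rw [List.length_append (bs := [0]), List.length_singleton]
      have e2 : t'.length = (t ++ List.replicate (N - t.length) (0 : ZMod 2)).length + 1 := by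
        change (t ++ List.replicate (N - t.length) (0 : ZMod 2) ++ [1]).length = _
        rw [List.length_append (bs := [1]), List.length_singleton]
      rw [e1, e2, hs, ht]
    refine ⟨[s', t'], ⟨s', t', rfl, fun h => hne (h.eq_of_length hlen),
      fun h => hne (h.eq_of_length hlen.symm).symm⟩, ?_⟩
    refine List.Forall₂.cons ?_ (List.Forall₂.cons ?_ List.Forall₂.nil)
    · exact (List.prefix_append _ _).trans (List.prefix_append _ _)
    · exact (List.prefix_append _ _).trans (List.prefix_append _ _))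
  refine ⟨a0, fun a b ha hab heq => ?_⟩
  obtain ⟨l, ⟨s, t, rfl, h1, h2⟩, h3⟩ := h0 [a, b] rfl (by simpa using hab) (by
    intro x hx
    simp only [List.mem_cons, List.not_mem_nil, or_false] at hx
    rcases hx with rfl | rfl
    · exact ha
    · exact ha.trans hab)
  simp only [List.map_cons, List.map_nil] at h3
  cases h3 with
  | cons h4 h5 =>
    cases h5 with
    | cons h6 h7 =>
      obtain ⟨n, rfl⟩ := h4
      obtain ⟨n', rfl⟩ := h6
      have hpre : ∀ (x : ℕ → ZMod 2) (i j : ℕ), i ≤ j → ini x i <+: ini x j := by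
        intro x i j hij
        obtain ⟨k, rfl⟩ := Nat.exists_eq_add_of_le hij
        unfold ini
        rw [List.range_add, List.map_append]
        exact List.prefix_append _ _
      rw [heq] at h1 h2
      rcases le_total n n' with h | h
      · exact h1 (hpre _ _ _ h)
      · exact h2 (hpre _ _ _ h)

theorem ini_prefix (x y : ℕ → ZMod 2) {i j : ℕ} (hij : i ≤ j) (h : ∀ p < i, y p = x p) :
    ini x i <+: ini y j := by
  obtain ⟨k, rfl⟩ := Nat.exists_eq_add_of_le hij
  unfold ini
  rw [List.range_add, List.map_append]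
  have : (List.range i).map x = (List.range i).map y := by
    refine List.map_congr_left fun p hp => ?_
    exact (h p (List.mem_range.1 hp)).symm
  rw [this]
  exact List.prefix_append _ _

theorem eq_of_ini {x y : ℕ → ZMod 2} {n n' : ℕ} (h : ini x n = ini y n') : ∀ p < n, y p = x p := by
  have h1 : n = n' := by
    have := congrArg List.length h
    simpa using this
  subst h1
  intro p hp
  have h2 := (List.map_inj_left).1 h p (List.mem_range.2 hp)
  exact h2.symm

theorem entangled_EE {c : W → ℕ → ZMod 2} (hc : Generic c) (hW : #W = ℵ₁)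
    (hIic : ∀ w : W, (Set.Iic w).Countable) : Entangled (EE c) := by
  classical
  have hWc : ¬ (Set.univ : Set W).Countable := by
    intro h
    have h1 : #W ≤ ℵ₀ := Cardinal.mk_le_aleph0_iff.2 (Set.countable_univ_iff.1 h)
    rw [hW, ← succ_aleph0] at h1
    exact absurd h1 (not_le.2 (Order.lt_succ _))
  intro k hk
  refine ⟨?_, ?_⟩
  · -- the set is uncountable
    obtain ⟨a0, h0⟩ := generic_injective hc
    by_contra hlt
    rw [not_le, ← succ_aleph0, Order.lt_succ_iff, Cardinal.le_aleph0_iff_set_countable] at hlt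
    have h1 : ∀ a, emb (c a) ∈ EE c := fun a => ⟨c a, ⟨{a}, by
      funext p
      simp [sm]⟩, rfl⟩
    have h2 : (Set.Ioi a0).Countable := by
      refine Set.countable_of_injective_of_countable_image (f := fun a => emb (c a)) ?_
        (hlt.mono ?_)
      · intro a ha b hb hab
        have h3 : c a = c b := emb_injective hab
        rcases lt_trichotomy a b with h | h | h
        · exact absurd h3 (h0 a b ha h)
        · exact h
        · exact absurd h3.symm (h0 b a hb h)
      · rintro _ ⟨a, _, rfl⟩
        exact h1 a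
    apply hWc
    have h3 : (Set.univ : Set W) = Set.Iic a0 ∪ Set.Ioi a0 := by
      rw [Set.Iic_union_Ioi]
    rw [h3]
    exact (hIic a0).union h2
  · intro F hF hF1 hF2 t
    -- supports
    have hex : ∀ (a : Fin k → ℝ) (i : Fin k), ∃ S : Finset W, a ∈ F → a i = emb (sm c S) := by
      intro a i
      by_cases ha : a ∈ F
      · obtain ⟨_, ⟨S, rfl⟩, hS⟩ := (hF1 a ha).1 i
        exact ⟨S, fun _ => hS.symm⟩
      · exact ⟨∅, fun h => absurd h ha⟩
    choose S hS using hex
    let T : (Fin k → ℝ) → Finset W := fun a => Finset.univ.biUnion (S a)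
    have hFc : ¬ F.Countable := by
      intro h
      rw [← Cardinal.le_aleph0_iff_set_countable, hF, ← succ_aleph0] at h
      exact absurd h (not_le.2 (Order.lt_succ _))
    obtain ⟨R, m, hΞ, hsmall⟩ := exists_root hFc T
    set Ξ : Set (Fin k → ℝ) := {x ∈ F | R ⊆ T x ∧ (T x \ R).card = m} with hΞdef
    -- the new generators
    have hz : ∀ a : Fin k → ℝ, ∃ z : Fin m → W, a ∈ Ξ → StrictMono z ∧
        Set.range z = ↑(T a \ R) := by
      intro a
      by_cases ha : a ∈ Ξ
      · exact ⟨(T a \ R).orderEmbOfFin ha.2.2, fun _ => ⟨((T a \ R).orderEmbOfFin ha.2.2).strictMono,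
          Finset.range_orderEmbOfFin _ _⟩⟩
      · by_cases hm : Nonempty (Fin m → W)
        · exact ⟨Classical.choice hm, fun h => absurd h ha⟩
        · exfalso
          apply hm
          obtain ⟨b, hb⟩ : Ξ.Nonempty := by
            by_contra hne
            rw [Set.not_nonempty_iff_eq_empty] at hne
            rw [hne] at hΞ
            exact hΞ Set.countable_empty
          exact ⟨(T b \ R).orderEmbOfFin hb.2.2⟩
    choose z hz using hz
    -- the pattern
    let pat : (Fin k → ℝ) → (Fin k → R.powerset) × (Fin k → Finset (Fin m)) := fun a =>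
      (fun i => ⟨S a i ∩ R, Finset.mem_powerset.2 Finset.inter_subset_right⟩,
        fun i => Finset.univ.filter fun j => z a j ∈ S a i)
    obtain ⟨q, hq⟩ := uncountable_fibre hΞ pat
    set Ξ1 : Set (Fin k → ℝ) := {a ∈ Ξ | pat a = q} with hΞ1
    let r : Fin k → ℕ → ZMod 2 := fun i => sm c (q.1 i).1
    let P : Fin k → Finset (Fin m) := q.2
    have hpt : ∀ a ∈ Ξ1, ∀ i, a i = emb (pt r P (fun j => c (z a j)) i) := by
      rintro a ⟨ha, hpa⟩ i
      rw [hS a i ha.1]
      congr 1
      funext p
      have h1 : (q.1 i).1 = S a i ∩ R := by rw [← hpa]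
      have h2 : P i = Finset.univ.filter fun j => z a j ∈ S a i := by
        show q.2 i = _
        rw [← hpa]
      show ∑ b ∈ S a i, c b p = sm c (q.1 i).1 p + ∑ j ∈ P i, c (z a j) p
      rw [h1, h2]
      have h3 : S a i = (S a i ∩ R) ∪ (Finset.univ.filter fun j => z a j ∈ S a i).image (z a) := by
        ext b
        simp only [Finset.mem_union, Finset.mem_inter, Finset.mem_image, Finset.mem_filter,
          Finset.mem_univ, true_and]
        constructor
        · intro hb
          by_cases hbR : b ∈ R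
          · exact Or.inl ⟨hb, hbR⟩
          · right
            have h4 : b ∈ (↑(T a \ R) : Set W) := by
              rw [Finset.mem_coe, Finset.mem_sdiff]
              exact ⟨Finset.mem_biUnion.2 ⟨i, Finset.mem_univ _, hb⟩, hbR⟩
            rw [← (hz a ha).2] at h4
            obtain ⟨j, rfl⟩ := h4
            exact ⟨j, hb, rfl⟩
        · rintro (⟨h, _⟩ | ⟨j, h, rfl⟩)
          · exact h
          · exact h
      have h4 : Disjoint (S a i ∩ R) ((Finset.univ.filter fun j => z a j ∈ S a i).image (z a)) := by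
        rw [Finset.disjoint_left]
        intro b hb hb'
        obtain ⟨j, _, rfl⟩ := Finset.mem_image.1 hb'
        have h5 : z a j ∈ (↑(T a \ R) : Set W) := by
          rw [← (hz a ha).2]
          exact ⟨j, rfl⟩
        rw [Finset.mem_coe, Finset.mem_sdiff] at h5
        exact h5.2 (Finset.mem_inter.1 hb).2
      conv_lhs => rw [h3]
      rw [Finset.sum_union h4, Finset.sum_image fun j _ j' _ h => (hz a ha).1.injective h]
      rfl
    have hΞ1F : ∀ a ∈ Ξ1, a ∈ F := fun a ha => ha.1.1
    -- every tuple uses a new generator at every place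
    have hPne : ∀ i, (P i).Nonempty := by
      intro i
      by_contra hne
      rw [Finset.not_nonempty_iff_eq_empty] at hne
      obtain ⟨a, ha, b, hb, hab⟩ : ∃ a ∈ Ξ1, ∃ b ∈ Ξ1, a ≠ b := by
        by_contra hcon
        push Not at hcon
        exact hq (Set.Subsingleton.countable fun a ha b hb => hcon a ha b hb)
      apply hF2 a (hΞ1F a ha) b (hΞ1F b hb) hab i i
      rw [hpt a ha i, hpt b hb i]
      congr 1
      funext p
      simp [pt, hne]
    -- the tree of the new generators
    let Tr : List (List (ZMod 2)) → Prop := fun l => ∃ a ∈ Ξ1,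
      List.Forall₂ (fun x s => ∃ n, s = ini x n) ((List.ofFn (z a)).map c) l
    obtain ⟨a0, ha0⟩ := hc m {l | ¬ Tr l ∨ ∀ l', List.Forall₂ (· <+: ·) l l' → Tr l'} (by
      intro l _
      by_cases h : ∀ l', List.Forall₂ (· <+: ·) l l' → Tr l'
      · exact ⟨l, Or.inr h, List.forall₂_same.2 fun x _ => List.prefix_rfl⟩
      · push Not at h
        obtain ⟨l', h1, h2⟩ := h
        exact ⟨l', Or.inl h2, h1⟩)
    obtain ⟨a, ha, hza⟩ : ∃ a ∈ Ξ1, ∀ j, a0 < z a j := by
      by_contra hcon
      push Not at hcon
      apply hq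
      refine (hsmall (Set.Iic a0) (hIic a0)).mono ?_
      intro a ha
      obtain ⟨j, hj⟩ := hcon a ha
      refine ⟨hΞ1F a ha, ha.1.2, z a j, ?_, hj⟩
      have h5 : z a j ∈ (↑(T a \ R) : Set W) := by
        rw [← (hz a ha.1).2]
        exact ⟨j, rfl⟩
      exact h5
    obtain ⟨l, hl, hl'⟩ := ha0 (List.ofFn (z a)) (by simp) (by
      rw [List.pairwise_ofFn]
      exact fun i j hij => (hz a ha.1).1 hij) (by
      intro b hb
      rw [List.mem_ofFn] at hb
      obtain ⟨j, rfl⟩ := hb
      exact hza j)
    have hTr : ∀ l', List.Forall₂ (· <+: ·) l l' → Tr l' := by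
      rcases hl with h | h
      · exact absurd ⟨a, ha, hl'⟩ h
      · exact h
    -- a bound for the lengths
    rw [List.forall₂_iff_get] at hl'
    obtain ⟨hlen, hget⟩ := hl'
    have hlm : l.length = m := by
      rw [← hlen]
      simp
    let n0 : ℕ := (l.map List.length).sum
    obtain ⟨L, y, w, hnL, hyw, hfin⟩ := realize r P hPne (fun j => c (z a j)) (by
      intro i i' h
      apply (hF1 a (hΞ1F a ha)).2
      rw [hpt a ha i, hpt a ha i', h]) n0 (fun i => decide (t i ≠ 0))
    -- extension of `l`
    have hext : ∀ y : Fin m → ℕ → ZMod 2, (∀ j, ∀ p < n0, y j p = c (z a j) p) →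
        ∃ b ∈ Ξ1, ∀ j, ∀ p < L, c (z b j) p = y j p := by
      intro y hy
      obtain ⟨b, hb, hb'⟩ := hTr (List.ofFn fun j => ini (y j) L) (by
        rw [List.forall₂_iff_get]
        refine ⟨by simp [hlm], fun i h1 h2 => ?_⟩
        have him : i < m := by omega
        obtain ⟨n, hn⟩ := hget i (by simpa using him) h1
        simp only [List.get_eq_getElem, List.getElem_map, List.getElem_ofFn] at hn ⊢
        rw [hn]
        have hnn : n ≤ n0 := by
          have h3 : (l[i]).length ≤ n0 := by
            refine List.single_le_sum (fun _ _ => Nat.zero_le _) _ ?_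
            exact List.mem_map.2 ⟨_, List.getElem_mem _, rfl⟩
          rw [hn, length_ini] at h3
          exact h3
        exact ini_prefix _ _ (hnn.trans hnL) fun p hp => hy ⟨i, him⟩ p (hp.trans_le hnn))
      refine ⟨b, hb, fun j p hp => ?_⟩
      rw [List.forall₂_iff_get] at hb'
      obtain ⟨n, hn⟩ := hb'.2 j (by simp) (by simp)
      simp only [List.get_eq_getElem, List.getElem_map, List.getElem_ofFn] at hn
      exact eq_of_ini hn p hp
    obtain ⟨b1, hb1, hb1'⟩ := hext y fun j p hp => (hyw j p hp).1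
    obtain ⟨b2, hb2, hb2'⟩ := hext w fun j p hp => (hyw j p hp).2
    have hlast := hfin (fun j => c (z b1 j)) (fun j => c (z b2 j)) hb1' hb2'
    refine ⟨b1, hΞ1F b1 hb1, b2, hΞ1F b2 hb2, ?_, fun i => ?_⟩
    · intro h
      have h1 := (hlast ⟨0, hk⟩).2
      rw [← hpt b1 hb1, ← hpt b2 hb2, h] at h1
      exact h1 rfl
    · rw [hpt b1 hb1 i, hpt b2 hb2 i, (hlast i).1]
      simp

end

/-- Under the continuum hypothesis there is an entangled set of reals which is a homogeneous
space. -/
theorem main (CH : (𝔠 : Cardinal.{0}) = ℵ₁) : ∃ E : Set ℝ, Entangled E ∧ Homogeneous E := by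
  classical
  obtain ⟨W, _, _, c, hW, hIic, hc⟩ := exists_generic (α := ZMod 2) CH
  exact ⟨EE c, entangled_EE hc hW hIic, homogeneous_EE c⟩

end Pool.Agent.Q307.HE
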